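import Pool.Agent.N612.PA.Terms

/-!
# A plane set coding a set of natural numbers
-/

namespace Pool.Agent.N612.PA

open Set

/-- The set `S_P`. -/
def codeSet (P : Set ℕ) : Set Plane :=
  {p | (∃ n : ℕ, p = ((n : ℝ), (n : ℝ) + 1)) ∨ (∃ n : ℕ, p = ((n : ℝ) + 1, (n : ℝ) + 1)) ∨
    ∃ n ∈ P, p = ((n : ℝ), 0)}

section

variable {k : ℕ}

/-- intersection term -/
def Tm.inter (a b : Tm k) : Tm k := .compl (.union (.compl a) (.compl b))

/-- difference term -/
def Tm.diff (a b : Tm k) : Tm k := a.inter (.compl b)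

/-- `X` -/
def Tm.tX : Tm k := .p1 (.compl .bot)

/-- `Y` -/
def Tm.tY : Tm k := .p2 (.compl .bot)

theorem eval_inter (S : Fin k → Set Plane) (a b : Tm k) :
    eval S (a.inter b) = eval S a ∩ eval S b := by
  simp [Tm.inter, eval, compl_union]

theorem eval_diff (S : Fin k → Set Plane) (a b : Tm k) :
    eval S (a.diff b) = eval S a \ eval S b := by
  simp [Tm.diff, eval_inter, eval, sdiff_eq]

theorem eval_tX (S : Fin k → Set Plane) : eval S Tm.tX = axisX := by
  ext ⟨x, y⟩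
  simp [Tm.tX, eval, proj1, axisX]

theorem eval_tY (S : Fin k → Set Plane) : eval S Tm.tY = axisY := by
  ext ⟨x, y⟩
  simp [Tm.tY, eval, proj2, axisY]

/-- the pair of terms for the points `(n, 0)` and `(0, n)` -/
def step (v : Tm k) : ℕ → Tm k × Tm k
  | 0 => (Tm.tX.inter Tm.tY, .bot)
  | n + 1 =>
    let b := (Tm.p2 ((v.diff Tm.tX).inter (.prod (step v n).1 Tm.tY))).diff (step v n).2
    ((Tm.p1 ((v.diff Tm.tX).inter (.prod Tm.tX b))).diff (step v n).1, b)

/-- the term which is nonempty iff `n ∈ P` -/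
def test (v : Tm k) (n : ℕ) : Tm k := (step v n).1.inter v

theorem mem_code_diff (P : Set ℕ) (x y : ℝ) : (x, y) ∈ codeSet P \ axisX ↔
    (∃ n : ℕ, x = n ∧ y = (n : ℝ) + 1) ∨ ∃ n : ℕ, x = (n : ℝ) + 1 ∧ y = (n : ℝ) + 1 := by
  simp only [codeSet, axisX, mem_sdiff, mem_ofPred_eq, Prod.mk.injEq]
  constructor
  · rintro ⟨h1 | h1 | ⟨n, _, _, h3⟩, h2⟩
    · exact Or.inl h1
    · exact Or.inr h1
    · exact absurd h3 h2
  · rintro (⟨n, h1, h2⟩ | ⟨n, h1, h2⟩)
    · refine ⟨Or.inl ⟨n, h1, h2⟩, ?_⟩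
      rw [h2]; positivity
    · refine ⟨Or.inr (Or.inl ⟨n, h1, h2⟩), ?_⟩
      rw [h2]; positivity

theorem tensor_col (c : ℝ) : tensor (proj1 {((c : ℝ), (0 : ℝ))}) (proj2 axisY) = {p | p.1 = c} := by
  rw [proj1_eq (by rintro p rfl; rfl), proj2_eq subset_rfl]
  ext ⟨x, y⟩
  simp [tensor, axisY]

theorem tensor_row (d : ℝ) :
    tensor (proj1 axisX) (proj2 {p : Plane | p.1 = 0 ∧ p.2 = d}) = {p | p.2 = d} := by
  rw [proj1_eq subset_rfl, proj2_eq (fun p hp => hp.1)]
  ext ⟨x, y⟩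
  simp [tensor, axisX]

theorem stepB (P : Set ℕ) (n : ℕ) :
    proj2 ((codeSet P \ axisX) ∩ {p | p.1 = (n : ℝ)}) \ {p | p.1 = 0 ∧ p.2 = (n : ℝ) ∧ n ≠ 0} =
      {p | p.1 = 0 ∧ p.2 = (n : ℝ) + 1} := by
  ext ⟨x, y⟩
  constructor
  · rintro ⟨⟨h1, x', h2, h3⟩, h4⟩
    simp only [mem_ofPred_eq] at h1 h3 h4 ⊢
    rw [mem_code_diff] at h2
    refine ⟨h1, ?_⟩
    rcases h2 with ⟨m, h5, h6⟩ | ⟨m, h5, h6⟩
    · change y = _ at h6
      rw [h6, ← h5, h3]
    · exfalso
      apply h4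
      change y = _ at h6
      refine ⟨h1, ?_, ?_⟩
      · rw [h6, ← h5, h3]
      · rintro rfl
        rw [h3] at h5
        have : (0 : ℝ) < (m : ℝ) + 1 := by positivity
        rw [← h5] at this
        simp at this
  · rintro ⟨h1, h2⟩
    simp only at h1 h2
    refine ⟨⟨h1, (n : ℝ), ?_, rfl⟩, ?_⟩
    · change ((n : ℝ), y) ∈ _
      rw [mem_code_diff]
      exact Or.inl ⟨n, rfl, h2⟩
    · rintro ⟨_, h3, _⟩
      simp only at h3
      rw [h2] at h3
      linarith

theorem stepA (P : Set ℕ) (n : ℕ) :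
    proj1 ((codeSet P \ axisX) ∩ {p | p.2 = (n : ℝ) + 1}) \ {((n : ℝ), (0 : ℝ))} =
      {((n : ℝ) + 1, (0 : ℝ))} := by
  ext ⟨x, y⟩
  constructor
  · rintro ⟨⟨h1, y', h2, h3⟩, h4⟩
    simp only [mem_ofPred_eq, mem_singleton_iff, Prod.mk.injEq] at h1 h3 h4 ⊢
    rw [mem_code_diff] at h2
    refine ⟨?_, h1⟩
    rcases h2 with ⟨m, h5, h6⟩ | ⟨m, h5, h6⟩
    · exfalso
      apply h4
      change x = _ at h5
      refine ⟨?_, h1⟩
      rw [h5]
      linarith
    · change x = _ at h5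
      rw [h5, ← h6, h3]
  · intro h
    rw [mem_singleton_iff, Prod.mk.injEq] at h
    obtain ⟨h1, h2⟩ := h
    refine ⟨⟨h2, (n : ℝ) + 1, ?_, rfl⟩, ?_⟩
    · change (x, (n : ℝ) + 1) ∈ _
      rw [mem_code_diff]
      exact Or.inr ⟨n, h1, rfl⟩
    · rw [mem_singleton_iff, Prod.mk.injEq]
      rintro ⟨h3, _⟩
      rw [h1] at h3
      linarith

theorem eval_step (S : Fin k → Set Plane) (P : Set ℕ) (v : Tm k) (hv : eval S v = codeSet P)
    (n : ℕ) : eval S (step v n).1 = {((n : ℝ), 0)} ∧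
      eval S (step v n).2 = {p | p.1 = 0 ∧ p.2 = (n : ℝ) ∧ n ≠ 0} := by
  induction n with
  | zero =>
    constructor
    · ext ⟨x, y⟩
      simp only [step, eval_inter, eval_tX, eval_tY, axisX, axisY, mem_inter_iff, mem_ofPred_eq,
        mem_singleton_iff, Prod.mk.injEq, Nat.cast_zero]
      tauto
    · ext ⟨x, y⟩
      simp [step, eval]
  | succ n ih =>
    obtain ⟨ih1, ih2⟩ := ih
    have hb : eval S (step v (n + 1)).2 = {p | p.1 = 0 ∧ p.2 = (n : ℝ) + 1} := by
      have h1 : eval S (step v (n + 1)).2 =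
          proj2 ((codeSet P \ axisX) ∩ tensor (proj1 (eval S (step v n).1)) (proj2 (axisY))) \
            eval S (step v n).2 := by
        simp only [step, eval_diff, eval, eval_inter, eval_tX, eval_tY, hv]
      rw [h1, ih1, ih2, tensor_col, stepB]
    have ha : eval S (step v (n + 1)).1 = {((n : ℝ) + 1, (0 : ℝ))} := by
      have h1 : eval S (step v (n + 1)).1 =
          proj1 ((codeSet P \ axisX) ∩ tensor (proj1 axisX) (proj2 (eval S (step v (n + 1)).2))) \
            eval S (step v n).1 := by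
        simp only [step, eval_diff, eval, eval_inter, eval_tX, hv]
      rw [h1, ih1, hb, tensor_row, stepA]
    rw [ha, hb]
    constructor
    · push_cast; rfl
    · ext p
      simp

theorem eval_test (S : Fin k → Set Plane) (P : Set ℕ) (v : Tm k) (hv : eval S v = codeSet P)
    (n : ℕ) : eval S (test v n) = eval S (.bot : Tm k) ↔ n ∉ P := by
  rw [test, eval_inter, (eval_step S P v hv n).1, hv]
  change _ = (∅ : Set Plane) ↔ _
  rw [singleton_inter_eq_empty, not_iff_not]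
  constructor
  · rintro (⟨m, h⟩ | ⟨m, h⟩ | ⟨m, hm, h⟩)
    · rw [Prod.mk.injEq] at h
      have : (0 : ℝ) < (m : ℝ) + 1 := by positivity
      rw [← h.2] at this
      simp at this
    · rw [Prod.mk.injEq] at h
      have : (0 : ℝ) < (m : ℝ) + 1 := by positivity
      rw [← h.2] at this
      simp at this
    · rw [Prod.mk.injEq] at h
      have : n = m := by exact_mod_cast h.1
      rw [this]; exact hm
  · intro hn
    exact Or.inr (Or.inr ⟨n, hn, rfl⟩)

end

/-- decoding -/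
def decode (S : Set Plane) : Set ℕ :=
  {n | eval (fun _ : Fin 1 => S) (test (.var 0) n) ≠ eval (fun _ : Fin 1 => S) (.bot : Tm 1)}

/-- the one-generated algebra of `P` -/
def alg (P : Set ℕ) : Set (Set Plane) := generated {codeSet P}

theorem alg_eq (P : Set ℕ) (k : ℕ) (hk : 0 < k) :
    alg P = generated (range (fun _ : Fin k => codeSet P)) := by
  haveI : Nonempty (Fin k) := ⟨⟨0, hk⟩⟩
  rw [alg, range_const]

theorem isProjectiveAlgebra_alg (P : Set ℕ) : IsProjectiveAlgebra (alg P) := by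
  rw [alg_eq P 1 one_pos]
  exact isProjectiveAlgebra_generated _

theorem countable_alg (P : Set ℕ) : (alg P).Countable := by
  rw [alg_eq P 1 one_pos]
  exact countable_generated _

theorem code_mem_alg (P : Set ℕ) : codeSet P ∈ alg P := fun _ _ h => h rfl

/-- An isomorphism of the algebra of `P` onto a family of sets sends `codeSet P` to a set from
which `P` can be recovered. -/
theorem decode_map (P : Set ℕ) {G : Set (Set Plane)} {φ : Set Plane → Set Plane}
    (hφ : IsIsomorphism (alg P) G φ) : decode (φ (codeSet P)) = P := by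
  ext n
  have hr : range (fun _ : Fin 1 => codeSet P) ⊆ alg P := by
    rintro _ ⟨_, rfl⟩
    exact code_mem_alg P
  have hF := isProjectiveAlgebra_alg P
  have h1 := map_eval hF hφ (fun _ : Fin 1 => codeSet P) hr (test (.var 0) n)
  have h2 := map_eval hF hφ (fun _ : Fin 1 => codeSet P) hr (.bot : Tm 1)
  have h3 := eval_test (fun _ : Fin 1 => codeSet P) P (.var 0) rfl n
  rw [decode, mem_ofPred_eq, ← h1, ← h2, ne_eq,
    hφ.bijOn.injOn.eq_iff (eval_mem _ hF hr _) (eval_mem _ hF hr _), h3, not_not]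

end Pool.Agent.N612.PA
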