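import Mathlib

/-!
# Projective algebras of plane sets
-/

namespace Pool.Agent.N612.PA

/-- The Euclidean plane. -/
abbrev Plane : Type := ℝ × ℝ

/-- The first axis `X = ℝ × {0}`. -/
def axisX : Set Plane := {p | p.2 = 0}

/-- The second axis `Y = {0} × ℝ`. -/
def axisY : Set Plane := {p | p.1 = 0}

/-- `π₁(S) = {(x, 0) : ∃ y, (x, y) ∈ S}`. -/
def proj1 (S : Set Plane) : Set Plane := {p | p.2 = 0 ∧ ∃ y : ℝ, (p.1, y) ∈ S}

/-- `π₂(S) = {(0, y) : ∃ x, (x, y) ∈ S}`. -/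
def proj2 (S : Set Plane) : Set Plane := {p | p.1 = 0 ∧ ∃ x : ℝ, (x, p.2) ∈ S}

/-- `A ⊗ B = {(x, y) : (x, 0) ∈ A, (0, y) ∈ B}`. -/
def tensor (A B : Set Plane) : Set Plane := {p | (p.1, 0) ∈ A ∧ (0, p.2) ∈ B}

/-- A projective algebra (of plane sets): a family of subsets of the plane closed under finite
unions (the empty one included) and complement, under `π₁` and `π₂`, and containing `A ⊗ B` for all
members `A ⊆ X`, `B ⊆ Y`. -/
structure IsProjectiveAlgebra (F : Set (Set Plane)) : Prop where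
  empty_mem : ∅ ∈ F
  union_mem : ∀ S ∈ F, ∀ T ∈ F, S ∪ T ∈ F
  compl_mem : ∀ S ∈ F, Sᶜ ∈ F
  proj1_mem : ∀ S ∈ F, proj1 S ∈ F
  proj2_mem : ∀ S ∈ F, proj2 S ∈ F
  tensor_mem : ∀ A ∈ F, ∀ B ∈ F, A ⊆ axisX → B ⊆ axisY → tensor A B ∈ F

/-- The projective algebra generated by a family of sets: the smallest one containing it. -/
def generated (𝒮 : Set (Set Plane)) : Set (Set Plane) :=
  {A | ∀ F : Set (Set Plane), IsProjectiveAlgebra F → 𝒮 ⊆ F → A ∈ F}

/-- `φ` restricts to an isomorphism of `F` onto `G`: a bijection commuting with complement, union,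
`π₁`, `π₂` and `⊗`. -/
structure IsIsomorphism (F G : Set (Set Plane)) (φ : Set Plane → Set Plane) : Prop where
  bijOn : Set.BijOn φ F G
  map_compl : ∀ S ∈ F, φ Sᶜ = (φ S)ᶜ
  map_union : ∀ S ∈ F, ∀ T ∈ F, φ (S ∪ T) = φ S ∪ φ T
  map_proj1 : ∀ S ∈ F, φ (proj1 S) = proj1 (φ S)
  map_proj2 : ∀ S ∈ F, φ (proj2 S) = proj2 (φ S)
  map_tensor : ∀ A ∈ F, ∀ B ∈ F, A ⊆ axisX → B ⊆ axisY → φ (tensor A B) = tensor (φ A) (φ B)

/-- Two projective algebras are isomorphic. -/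
def Isomorphic (F G : Set (Set Plane)) : Prop :=
  ∃ φ : Set Plane → Set Plane, IsIsomorphism F G φ

end Pool.Agent.N612.PA
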