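import Pool.Agent.N612.PA.Code

/-!
# Isomorphism classes
-/

namespace Pool.Agent.N612.PA

open Set

/-- `F` is a projective algebra generated by `k` subsets `S_1, …, S_k` of the plane. -/
def IsGeneratedBy (k : ℕ) (F : Set (Set Plane)) : Prop :=
  ∃ S : Fin k → Set Plane, F = generated (Set.range S)

theorem isIso_refl (F : Set (Set Plane)) : IsIsomorphism F F id where
  bijOn := bijOn_id F
  map_compl := fun _ _ => rfl
  map_union := fun _ _ _ _ => rfl
  map_proj1 := fun _ _ => rfl
  map_proj2 := fun _ _ => rfl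
  map_tensor := fun _ _ _ _ _ _ => rfl

theorem IsIsomorphism.subset_axisX {F G : Set (Set Plane)} {φ : Set Plane → Set Plane}
    (h : IsIsomorphism F G φ) {A : Set Plane} (hA : A ∈ F) (hX : A ⊆ axisX) : φ A ⊆ axisX := by
  have h1 := h.map_proj1 A hA
  rw [proj1_eq hX] at h1
  rw [h1]
  exact proj1_subset _

theorem IsIsomorphism.subset_axisY {F G : Set (Set Plane)} {φ : Set Plane → Set Plane}
    (h : IsIsomorphism F G φ) {A : Set Plane} (hA : A ∈ F) (hX : A ⊆ axisY) : φ A ⊆ axisY := by
  have h1 := h.map_proj2 A hA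
  rw [proj2_eq hX] at h1
  rw [h1]
  exact proj2_subset _

theorem isIso_trans {F G H : Set (Set Plane)} {φ ψ : Set Plane → Set Plane}
    (h1 : IsIsomorphism F G φ) (h2 : IsIsomorphism G H ψ) : IsIsomorphism F H (ψ ∘ φ) where
  bijOn := h2.bijOn.comp h1.bijOn
  map_compl := fun S hS => by
    simp only [Function.comp_apply]
    rw [h1.map_compl S hS, h2.map_compl _ (h1.bijOn.mapsTo hS)]
  map_union := fun S hS T hT => by
    simp only [Function.comp_apply]
    rw [h1.map_union S hS T hT, h2.map_union _ (h1.bijOn.mapsTo hS) _ (h1.bijOn.mapsTo hT)]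
  map_proj1 := fun S hS => by
    simp only [Function.comp_apply]
    rw [h1.map_proj1 S hS, h2.map_proj1 _ (h1.bijOn.mapsTo hS)]
  map_proj2 := fun S hS => by
    simp only [Function.comp_apply]
    rw [h1.map_proj2 S hS, h2.map_proj2 _ (h1.bijOn.mapsTo hS)]
  map_tensor := fun A hA B hB hX hY => by
    simp only [Function.comp_apply]
    rw [h1.map_tensor A hA B hB hX hY, h2.map_tensor _ (h1.bijOn.mapsTo hA) _
      (h1.bijOn.mapsTo hB) (h1.subset_axisX hA hX) (h1.subset_axisY hB hY)]

theorem isIso_symm {F G : Set (Set Plane)} (hF : IsProjectiveAlgebra F) {φ : Set Plane → Set Plane}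
    (h : IsIsomorphism F G φ) : IsIsomorphism G F (Function.invFunOn φ F) := by
  have hinv : ∀ A ∈ F, Function.invFunOn φ F (φ A) = A := fun A hA =>
    h.bijOn.injOn.leftInvOn_invFunOn hA
  have hsurj : ∀ B ∈ G, ∃ A ∈ F, φ A = B := fun B hB => h.bijOn.surjOn hB
  refine ⟨?_, ?_, ?_, ?_, ?_, ?_⟩
  · refine ⟨?_, ?_, ?_⟩
    · intro B hB
      obtain ⟨A, hA, rfl⟩ := hsurj B hB
      rw [hinv A hA]; exact hA
    · intro B hB C hC hBC
      obtain ⟨A, hA, rfl⟩ := hsurj B hB
      obtain ⟨D, hD, rfl⟩ := hsurj C hC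
      rw [hinv A hA, hinv D hD] at hBC
      rw [hBC]
    · intro A hA
      exact ⟨φ A, h.bijOn.mapsTo hA, hinv A hA⟩
  · intro B hB
    obtain ⟨A, hA, rfl⟩ := hsurj B hB
    rw [← h.map_compl A hA, hinv _ (hF.compl_mem A hA), hinv A hA]
  · intro B hB C hC
    obtain ⟨A, hA, rfl⟩ := hsurj B hB
    obtain ⟨D, hD, rfl⟩ := hsurj C hC
    rw [← h.map_union A hA D hD, hinv _ (hF.union_mem A hA D hD), hinv A hA, hinv D hD]
  · intro B hB
    obtain ⟨A, hA, rfl⟩ := hsurj B hB
    rw [← h.map_proj1 A hA, hinv _ (hF.proj1_mem A hA), hinv A hA]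
  · intro B hB
    obtain ⟨A, hA, rfl⟩ := hsurj B hB
    rw [← h.map_proj2 A hA, hinv _ (hF.proj2_mem A hA), hinv A hA]
  · intro B hB C hC hBX hCY
    obtain ⟨A, hA, rfl⟩ := hsurj B hB
    obtain ⟨D, hD, rfl⟩ := hsurj C hC
    have hAX : A ⊆ axisX := by
      have h1 : φ (proj1 A) = φ A := by rw [h.map_proj1 A hA, proj1_eq hBX]
      have h2 := h.bijOn.injOn (hF.proj1_mem A hA) hA h1
      rw [← h2]; exact proj1_subset _
    have hDY : D ⊆ axisY := by
      have h1 : φ (proj2 D) = φ D := by rw [h.map_proj2 D hD, proj2_eq hCY]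
      have h2 := h.bijOn.injOn (hF.proj2_mem D hD) hD h1
      rw [← h2]; exact proj2_subset _
    rw [← h.map_tensor A hA D hD hAX hDY, hinv _ (hF.tensor_mem A hA D hD hAX hDY), hinv A hA,
      hinv D hD]

theorem IsGeneratedBy.isProjectiveAlgebra {k : ℕ} {F : Set (Set Plane)} (h : IsGeneratedBy k F) :
    IsProjectiveAlgebra F := by
  obtain ⟨S, rfl⟩ := h
  exact isProjectiveAlgebra_generated S

/-- Isomorphism, as an equivalence relation on the projective algebras generated by `k` subsets of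
the plane. -/
def isoSetoid (k : ℕ) : Setoid {F : Set (Set Plane) // IsGeneratedBy k F} where
  r F G := Isomorphic F.1 G.1
  iseqv :=
    { refl := fun F => ⟨id, isIso_refl F.1⟩
      symm := fun {F _} h => by
        obtain ⟨φ, hφ⟩ := h
        exact ⟨_, isIso_symm F.2.isProjectiveAlgebra hφ⟩
      trans := fun h1 h2 => by
        obtain ⟨φ, hφ⟩ := h1
        obtain ⟨ψ, hψ⟩ := h2
        exact ⟨_, isIso_trans hφ hψ⟩ }

/-- upper bound -/
theorem card_le (k : ℕ) : Cardinal.mk (Quotient (isoSetoid k)) ≤ Cardinal.continuum := by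
  classical
  let f : Quotient (isoSetoid k) → Set (Tm k × Tm k) := fun q =>
    {p | eval q.out.2.choose p.1 = eval q.out.2.choose p.2}
  have hf : Function.Injective f := by
    intro q r hqr
    rw [← q.out_eq, ← r.out_eq]
    apply Quotient.sound
    change Isomorphic q.out.1 r.out.1
    rw [q.out.2.choose_spec, r.out.2.choose_spec]
    apply isomorphic_of_theory
    intro t s
    exact Set.ext_iff.1 hqr (t, s)
  calc Cardinal.mk (Quotient (isoSetoid k)) ≤ Cardinal.mk (Set (Tm k × Tm k)) :=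
        Cardinal.mk_le_of_injective hf
    _ = 2 ^ Cardinal.mk (Tm k × Tm k) := Cardinal.mk_set
    _ ≤ 2 ^ Cardinal.aleph0 := Cardinal.power_le_power_left two_ne_zero
        (Cardinal.mk_le_aleph0_iff.2 inferInstance)
    _ = Cardinal.continuum := Cardinal.two_power_aleph0

/-- lower bound -/
theorem le_card (k : ℕ) (hk : 0 < k) :
    Cardinal.continuum ≤ Cardinal.mk (Quotient (isoSetoid k)) := by
  classical
  let a : Set ℕ → {F : Set (Set Plane) // IsGeneratedBy k F} := fun P =>
    ⟨alg P, fun _ => codeSet P, alg_eq P k hk⟩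
  let c : Set ℕ → Quotient (isoSetoid k) := fun P => Quotient.mk _ (a P)
  have hfib : ∀ q, {P | c P = q}.Countable := by
    intro q
    by_cases hq : ∃ P0, c P0 = q
    · obtain ⟨P0, rfl⟩ := hq
      apply ((countable_alg P0).image decode).mono
      intro P hP
      have h1 : Isomorphic (alg P) (alg P0) := Quotient.exact hP
      obtain ⟨φ, hφ⟩ := h1
      exact ⟨φ (codeSet P), hφ.bijOn.mapsTo (code_mem_alg P), decode_map P hφ⟩
    · have : {P | c P = q} = ∅ := by
        ext P
        simp only [mem_ofPred_eq, mem_empty_iff_false, iff_false]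
        intro h
        exact hq ⟨P, h⟩
      rw [this]
      exact countable_empty
  have hinj : ∀ q, ∃ e : Set ℕ → ℕ, InjOn e {P | c P = q} := by
    intro q
    exact Set.countable_iff_exists_injOn.1 (hfib q)
  choose e he using hinj
  have h1 : Function.Injective (fun P : Set ℕ => (c P, e (c P) P)) := by
    intro P Q h
    rw [Prod.mk.injEq] at h
    apply he (c P) rfl h.1.symm
    rw [h.2, h.1]
  have h2 := Cardinal.mk_le_of_injective h1
  rw [Cardinal.mk_prod, Cardinal.lift_id, Cardinal.lift_id, Cardinal.mk_set, Cardinal.mk_nat,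
    Cardinal.two_power_aleph0] at h2
  by_contra hcon
  push Not at hcon
  exact absurd h2 (not_le.2 (Cardinal.mul_lt_of_lt Cardinal.aleph0_le_continuum hcon
    Cardinal.aleph0_lt_continuum))

end Pool.Agent.N612.PA
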