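import Pool.Agent.N612.PA.Defs

/-!
# Terms for projective algebras
-/

namespace Pool.Agent.N612.PA

open Set

theorem proj1_subset (S : Set Plane) : proj1 S ⊆ axisX := fun _ hp => hp.1

theorem proj2_subset (S : Set Plane) : proj2 S ⊆ axisY := fun _ hp => hp.1

theorem proj1_eq {A : Set Plane} (h : A ⊆ axisX) : proj1 A = A := by
  ext ⟨x, y⟩
  constructor
  · rintro ⟨h1, z, hz⟩
    have h2 : z = 0 := h hz
    subst h2
    simp only at h1 hz
    rw [h1]; exact hz
  · intro hp
    have h1 : y = 0 := h hp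
    subst h1
    exact ⟨rfl, 0, hp⟩

theorem proj2_eq {A : Set Plane} (h : A ⊆ axisY) : proj2 A = A := by
  ext ⟨x, y⟩
  constructor
  · rintro ⟨h1, z, hz⟩
    have h2 : z = 0 := h hz
    subst h2
    simp only at h1 hz
    rw [h1]; exact hz
  · intro hp
    have h1 : x = 0 := h hp
    subst h1
    exact ⟨rfl, 0, hp⟩

/-- terms in `k` variables -/
inductive Tm (k : ℕ) : Type
  | var : Fin k → Tm k
  | bot : Tm k
  | compl : Tm k → Tm k
  | union : Tm k → Tm k → Tm k
  | p1 : Tm k → Tm k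
  | p2 : Tm k → Tm k
  | prod : Tm k → Tm k → Tm k
  deriving Countable

/-- evaluation -/
def eval {k : ℕ} (S : Fin k → Set Plane) : Tm k → Set Plane
  | .var i => S i
  | .bot => ∅
  | .compl t => (eval S t)ᶜ
  | .union t s => eval S t ∪ eval S s
  | .p1 t => proj1 (eval S t)
  | .p2 t => proj2 (eval S t)
  | .prod t s => tensor (proj1 (eval S t)) (proj2 (eval S s))

theorem isProjectiveAlgebra_range {k : ℕ} (S : Fin k → Set Plane) :
    IsProjectiveAlgebra (range (eval S)) where
  empty_mem := ⟨.bot, rfl⟩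
  union_mem := by
    rintro _ ⟨t, rfl⟩ _ ⟨s, rfl⟩
    exact ⟨.union t s, rfl⟩
  compl_mem := by
    rintro _ ⟨t, rfl⟩
    exact ⟨.compl t, rfl⟩
  proj1_mem := by
    rintro _ ⟨t, rfl⟩
    exact ⟨.p1 t, rfl⟩
  proj2_mem := by
    rintro _ ⟨t, rfl⟩
    exact ⟨.p2 t, rfl⟩
  tensor_mem := by
    rintro _ ⟨t, rfl⟩ _ ⟨s, rfl⟩ h1 h2
    refine ⟨.prod t s, ?_⟩
    rw [eval, proj1_eq h1, proj2_eq h2]

theorem eval_mem {k : ℕ} (S : Fin k → Set Plane) {F : Set (Set Plane)} (hF : IsProjectiveAlgebra F)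
    (hS : range S ⊆ F) (t : Tm k) : eval S t ∈ F := by
  induction t with
  | var i => exact hS ⟨i, rfl⟩
  | bot => exact hF.empty_mem
  | compl t ih => exact hF.compl_mem _ ih
  | union t s iht ihs => exact hF.union_mem _ iht _ ihs
  | p1 t ih => exact hF.proj1_mem _ ih
  | p2 t ih => exact hF.proj2_mem _ ih
  | prod t s iht ihs =>
    exact hF.tensor_mem _ (hF.proj1_mem _ iht) _ (hF.proj2_mem _ ihs) (proj1_subset _)
      (proj2_subset _)

theorem generated_eq {k : ℕ} (S : Fin k → Set Plane) : generated (range S) = range (eval S) := by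
  ext A
  constructor
  · intro hA
    apply hA _ (isProjectiveAlgebra_range S)
    rintro _ ⟨i, rfl⟩
    exact ⟨.var i, rfl⟩
  · rintro ⟨t, rfl⟩ F hF hS
    exact eval_mem S hF hS t

theorem isProjectiveAlgebra_generated {k : ℕ} (S : Fin k → Set Plane) :
    IsProjectiveAlgebra (generated (range S)) := by
  rw [generated_eq]
  exact isProjectiveAlgebra_range S

theorem countable_generated {k : ℕ} (S : Fin k → Set Plane) : (generated (range S)).Countable := by
  rw [generated_eq]
  exact countable_range _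

/-- A map commuting with the operations commutes with terms. -/
theorem map_eval {F G : Set (Set Plane)} (hF : IsProjectiveAlgebra F) {φ : Set Plane → Set Plane}
    (hφ : IsIsomorphism F G φ) {k : ℕ} (S : Fin k → Set Plane) (hS : range S ⊆ F) (t : Tm k) :
    φ (eval S t) = eval (fun i => φ (S i)) t := by
  induction t with
  | var i => rfl
  | bot =>
    have h1 := hφ.map_union _ hF.empty_mem _ (hF.compl_mem _ hF.empty_mem)
    have h2 := hφ.map_compl _ (hF.union_mem _ hF.empty_mem _ (hF.compl_mem _ hF.empty_mem))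
    rw [h1, hφ.map_compl _ hF.empty_mem, union_compl_self, union_compl_self, compl_univ] at h2
    exact h2
  | compl t ih =>
    rw [eval, hφ.map_compl _ (eval_mem S hF hS t), ih, eval]
  | union t s iht ihs =>
    rw [eval, hφ.map_union _ (eval_mem S hF hS t) _ (eval_mem S hF hS s), iht, ihs, eval]
  | p1 t ih =>
    rw [eval, hφ.map_proj1 _ (eval_mem S hF hS t), ih, eval]
  | p2 t ih =>
    rw [eval, hφ.map_proj2 _ (eval_mem S hF hS t), ih, eval]
  | prod t s iht ihs =>
    rw [eval, hφ.map_tensor _ (hF.proj1_mem _ (eval_mem S hF hS t)) _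
      (hF.proj2_mem _ (eval_mem S hF hS s)) (proj1_subset _) (proj2_subset _),
      hφ.map_proj1 _ (eval_mem S hF hS t), hφ.map_proj2 _ (eval_mem S hF hS s), iht, ihs, eval]

/-- If two tuples satisfy the same equations between terms, the generated algebras are
isomorphic. -/
theorem isomorphic_of_theory {k : ℕ} (S T : Fin k → Set Plane)
    (h : ∀ t s, eval S t = eval S s ↔ eval T t = eval T s) :
    Isomorphic (generated (range S)) (generated (range T)) := by
  classical
  rw [generated_eq, generated_eq]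
  let φ : Set Plane → Set Plane := fun A =>
    if hA : A ∈ range (eval S) then eval T hA.choose else ∅
  have hφ : ∀ t, φ (eval S t) = eval T t := by
    intro t
    have hA : eval S t ∈ range (eval S) := ⟨t, rfl⟩
    simp only [φ, dif_pos hA]
    rw [← h]
    exact hA.choose_spec
  refine ⟨φ, ⟨⟨?_, ?_, ?_⟩, ?_, ?_, ?_, ?_, ?_⟩⟩
  · rintro _ ⟨t, rfl⟩
    rw [hφ]; exact ⟨t, rfl⟩
  · rintro _ ⟨t, rfl⟩ _ ⟨s, rfl⟩ hts
    rw [hφ, hφ] at hts
    rwa [h]
  · rintro _ ⟨t, rfl⟩
    exact ⟨eval S t, ⟨t, rfl⟩, hφ t⟩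
  · rintro _ ⟨t, rfl⟩
    rw [hφ]; exact hφ (.compl t)
  · rintro _ ⟨t, rfl⟩ _ ⟨s, rfl⟩
    rw [hφ, hφ]; exact hφ (.union t s)
  · rintro _ ⟨t, rfl⟩
    rw [hφ]; exact hφ (.p1 t)
  · rintro _ ⟨t, rfl⟩
    rw [hφ]; exact hφ (.p2 t)
  · rintro _ ⟨t, rfl⟩ _ ⟨s, rfl⟩ h1 h2
    have h3 : eval S (.p1 t) = eval S t := proj1_eq h1
    have h4 : eval S (.p2 s) = eval S s := proj2_eq h2
    have h5 := hφ (.prod t s)
    rw [eval, eval] at h5
    rw [hφ, hφ]
    rw [proj1_eq h1, proj2_eq h2] at h5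
    have h6 : proj1 (eval T t) = eval T t := (h _ _).1 h3
    have h7 : proj2 (eval T s) = eval T s := (h _ _).1 h4
    rw [h5]
    first
      | rw [h6, h7]
      | (change tensor (proj1 (eval T t)) (proj2 (eval T s)) = _; rw [h6, h7])

end Pool.Agent.N612.PA
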